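import Pool.Agent.Q33.QPhi.Delannoy

/-! `MP_c68aab_nt`: the `q`-congruence for sums of products of `q`-Delannoy numbers modulo `[p]²`. -/

namespace Pool.Agent.Results.MP_c68aab_nt.DelannoyCongruence

open Finset LaurentPolynomial

/-- Gaussian binomial coefficients in the variable `x` (`q`-Pascal rule) -/
def gauss {R : Type*} [CommRing R] (x : R) : ℕ → ℕ → R
  | _, 0 => 1
  | 0, _ + 1 => 0
  | n + 1, k + 1 => gauss x n k + x ^ (k + 1) * gauss x n (k + 1)

/-- the `q`-Delannoy number at `q = x` -/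
def delannoy {R : Type*} [CommRing R] (x : R) (m n : ℕ) : R :=
  ∑ j ∈ range (n + 1), x ^ (j * (j - 1) / 2) * gauss x n j * gauss x (m + n - j) n

/-- `[n]` -/
noncomputable def br (n : ℕ) : LaurentPolynomial ℤ := ∑ i ∈ range n, T (i : ℤ)

/-- `S_p(m)` -/
noncomputable def S (p m : ℕ) : LaurentPolynomial ℤ :=
  ∑ j ∈ range p, br (2 * j + 1) * T (-(j : ℤ)) * delannoy (T 1 : LaurentPolynomial ℤ) m j *
    delannoy (T (-1) : LaurentPolynomial ℤ) m j

theorem gauss_eq {R : Type*} [CommRing R] (x : R) : ∀ n k : ℕ, gauss x n k = Q33.QPhi.gb x n k := by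
  intro n
  induction n with
  | zero =>
    intro k
    rcases k with _ | k <;> rfl
  | succ n ih =>
    intro k
    rcases k with _ | k
    · rfl
    · rw [gauss, Q33.QPhi.gb, ih, ih]

/-- the Gaussian binomials satisfy the product formula of the problem -/
theorem gauss_formula {R : Type*} [CommRing R] (x : R) (n k : ℕ) :
    gauss x n k * ∏ i ∈ range k, (1 - x ^ (i + 1)) = ∏ i ∈ range k, (1 - x ^ (n - i)) := by
  rw [gauss_eq, ← Q33.QPhi.gb_prod]
  congr 1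
  unfold Q33.QPhi.poch
  refine prod_congr rfl fun i _ => ?_
  rw [pow_succ']

theorem delannoy_eq {R : Type*} [CommRing R] (x : R) (m n : ℕ) : delannoy x m n = Q33.QPhi.Dq x m n := by
  unfold delannoy Q33.QPhi.Dq
  simp only [gauss_eq]

theorem br_eq (n : ℕ) : br n = ∑ i ∈ range n, (T 1 : LaurentPolynomial ℤ) ^ i := by
  unfold br
  refine sum_congr rfl fun i _ => ?_
  rw [T_pow, mul_one]

theorem S_eq (p m : ℕ) : S p m = Q33.QPhi.TT (T 1 : LaurentPolynomial ℤ) (T (-1)) m p := by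
  unfold S Q33.QPhi.TT
  refine sum_congr rfl fun j _ => ?_
  rw [br_eq, delannoy_eq, delannoy_eq, T_pow (-1)]
  congr 3
  congr 1
  ring

open Q33.QPhi in
theorem transfer {p : ℕ} [NeZero p] (hp : p.Prime) (x : (O p)ˣ) (hx : (x : O p) = qO p)
    (F : LaurentPolynomial ℤ) (hF : PhiO p ^ 2 ∣ eval₂ (Int.castRingHom (O p)) x F) : br p ^ 2 ∣ F := by
  have := Fact.mk hp
  obtain ⟨k, f, hf⟩ := exists_T_pow F
  have h1 : eval₂ (Int.castRingHom (O p)) x (Polynomial.toLaurent f)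
      = Polynomial.eval₂RingHom (Int.castRingHom (O p)) x f := by
    rw [eval₂_toLaurent]
    rfl
  have h2 : (psi p).comp (Polynomial.eval₂RingHom (Int.castRingHom (O p)) (x : O p)) = incl := by
    apply Polynomial.ringHom_ext
    · intro a
      simp [incl]
    · simp only [RingHom.comp_apply, Polynomial.coe_eval₂RingHom, Polynomial.eval₂_X, hx, psi_qO, incl,
        Polynomial.coe_mapRingHom, Polynomial.map_X, RatFunc.algebraMap_X]
  have h3 : psi p (eval₂ (Int.castRingHom (O p)) x (Polynomial.toLaurent f)) = incl f / incl 1 := by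
    rw [h1, ← h2, map_one, div_one]
    rfl
  have h4 : algebraMap (Polynomial ℚ) (O p) (Polynomial.cyclotomic p ℚ) ^ 2 ∣
      eval₂ (Int.castRingHom (O p)) x (Polynomial.toLaurent f) := by
    rw [hf, map_mul]
    exact Dvd.dvd.mul_right hF _
  have h5 := (conclude (k := 2) _ _ h4).2 f 1 one_ne_zero h3
  have h6 := map_dvd (Polynomial.toLaurent (R := ℤ)) h5
  rw [map_pow, hf] at h6
  have h7 : Polynomial.toLaurent (Polynomial.cyclotomic p ℤ) = br p := by
    rw [Polynomial.cyclotomic_prime, map_sum]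
    unfold br
    refine sum_congr rfl fun i _ => ?_
    rw [Polynomial.toLaurent_X_pow]
  rw [h7] at h6
  have h8 : F = F * T k * T (-(k : ℤ)) := by
    rw [mul_assoc, ← T_add, add_neg_cancel, T_zero, mul_one]
  rw [h8]
  exact Dvd.dvd.mul_right h6 _

open Q33.QPhi in
theorem map_TT {A B : Type*} [CommRing A] [CommRing B] (f : A →+* B) (x y : A) (m n : ℕ) :
    f (TT x y m n) = TT (f x) (f y) m n := by
  unfold TT
  simp only [map_sum, map_mul, map_pow, map_Dq]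

/-- **Theorem.** For every odd prime `p` and every `m ≥ 1`, the three cases of the congruence hold. -/
theorem result (p m : ℕ) (hp : p.Prime) (hp2 : p ≠ 2) (hm : 1 ≤ m) :
    (p ∣ m → ∃ R : LaurentPolynomial ℤ, (1 - T 2) * R = T 1 * (1 - T (-(2 * (m : ℤ)))) ∧
      br p ^ 2 ∣ S p m - R) ∧
    (p ∣ m + 1 → ∃ R : LaurentPolynomial ℤ, (1 - T 2) * R = T 1 * (1 - T (2 * (m : ℤ) + 2)) ∧
      br p ^ 2 ∣ S p m - R) ∧
    (¬ p ∣ m * (m + 1) → br p ^ 2 ∣ S p m) := by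
  have hodd : Odd p := hp.odd_of_ne_two hp2
  have : NeZero p := ⟨hp.ne_zero⟩
  obtain ⟨m, rfl⟩ : ∃ m', m = m' + 1 := ⟨m - 1, by omega⟩
  obtain ⟨x, hx⟩ := Q33.QPhi.unit_q p hp.one_lt
  have hinv : Q33.QPhi.qO p * ((x⁻¹ : (Q33.QPhi.O p)ˣ) : Q33.QPhi.O p) = 1 := by rw [← hx, Units.mul_inv]
  set φ := eval₂ (Int.castRingHom (Q33.QPhi.O p)) x with hφ
  have hT1 : φ (T 1) = Q33.QPhi.qO p := by rw [hφ, eval₂_T, zpow_one, hx]
  have hTm : φ (T (-1)) = ((x⁻¹ : (Q33.QPhi.O p)ˣ) : Q33.QPhi.O p) := by rw [hφ, eval₂_T, zpow_neg_one]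
  have hS : φ (S p (m + 1)) = Q33.QPhi.TT (Q33.QPhi.qO p) ((x⁻¹ : (Q33.QPhi.O p)ˣ) : Q33.QPhi.O p) (m + 1) p := by
    rw [S_eq, map_TT, hT1, hTm]
  have hTp : ∀ k : ℕ, (T (k : ℤ) : LaurentPolynomial ℤ) = T 1 ^ k := by
    intro k
    rw [T_pow, mul_one]
  have hTn : ∀ k : ℕ, (T (-(k : ℤ)) : LaurentPolynomial ℤ) = T (-1) ^ k := by
    intro k
    rw [T_pow]
    congr 1
    ring
  refine ⟨?_, ?_, ?_⟩
  · rintro ⟨u, hu⟩
    have hR : (1 - T 2) * (-(T 1 * T (-(2 * ((m + 1 : ℕ) : ℤ))) * ∑ i ∈ range (m + 1), (T 2) ^ i))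
        = (T 1 * (1 - T (-(2 * ((m + 1 : ℕ) : ℤ)))) : LaurentPolynomial ℤ) := by
      have h1 := Q33.QPhi.geom (T 2 : LaurentPolynomial ℤ) (m + 1)
      have h2 : (T (-(2 * ((m + 1 : ℕ) : ℤ))) : LaurentPolynomial ℤ) * (T 2) ^ (m + 1) = 1 := by
        rw [T_pow, ← T_add, ← T_zero]
        congr 1
        ring
      linear_combination (-(T 1 * T (-(2 * ((m + 1 : ℕ) : ℤ))))) * h1 + T 1 * h2
    refine ⟨_, hR, ?_⟩
    apply transfer hp x hx
    rw [← hφ, map_sub, hS]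
    refine Q33.QPhi.main2 hp hodd _ hinv m u hu _ ?_
    have h3 := congrArg φ hR
    have e1 : (T 2 : LaurentPolynomial ℤ) = T 1 ^ 2 := hTp 2
    have e2 : (T (-(2 * ((m + 1 : ℕ) : ℤ))) : LaurentPolynomial ℤ) = T (-1) ^ (2 * (m + 1)) := by
      rw [← hTn]
      push_cast
      rfl
    rw [map_mul φ (1 - T 2), map_mul φ (T 1) (1 - _), map_sub, map_sub, map_one] at h3
    rw [show φ (T 2) = Q33.QPhi.qO p ^ 2 by rw [e1, map_pow, hT1], hT1,
      show φ (T (-(2 * ((m + 1 : ℕ) : ℤ)))) = ((x⁻¹ : (Q33.QPhi.O p)ˣ) : Q33.QPhi.O p) ^ (2 * (m + 1)) by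
        rw [e2, map_pow, hTm]] at h3
    exact h3
  · rintro ⟨u, hu⟩
    have hR : (1 - T 2) * (T 1 * ∑ i ∈ range (m + 2), (T 2) ^ i)
        = (T 1 * (1 - T (2 * ((m + 1 : ℕ) : ℤ) + 2)) : LaurentPolynomial ℤ) := by
      have h1 := Q33.QPhi.geom (T 2 : LaurentPolynomial ℤ) (m + 2)
      have h2 : (T 2 : LaurentPolynomial ℤ) ^ (m + 2) = T (2 * ((m + 1 : ℕ) : ℤ) + 2) := by
        rw [T_pow]
        congr 1
        push_cast
        ring
      rw [← h2]
      linear_combination T 1 * h1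
    refine ⟨_, hR, ?_⟩
    apply transfer hp x hx
    rw [← hφ, map_sub, hS]
    refine Q33.QPhi.main3 hp hodd _ hinv m u hu _ ?_
    have h3 := congrArg φ hR
    have e1 : (T 2 : LaurentPolynomial ℤ) = T 1 ^ 2 := hTp 2
    have e2 : (T (2 * ((m + 1 : ℕ) : ℤ) + 2) : LaurentPolynomial ℤ) = T 1 ^ (2 * (m + 1) + 2) := by
      rw [← hTp]
      push_cast
      rfl
    rw [map_mul φ (1 - T 2), map_mul φ (T 1) (1 - _), map_sub, map_sub, map_one] at h3
    rw [show φ (T 2) = Q33.QPhi.qO p ^ 2 by rw [e1, map_pow, hT1], hT1,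
      show φ (T (2 * ((m + 1 : ℕ) : ℤ) + 2)) = Q33.QPhi.qO p ^ (2 * (m + 1) + 2) by
        rw [e2, map_pow, hT1]] at h3
    exact h3
  · intro hnd
    apply transfer hp x hx
    rw [← hφ, hS]
    refine Q33.QPhi.main1 hp hodd _ hinv m (fun h => hnd (Dvd.dvd.mul_right h _)) (fun h => hnd (Dvd.dvd.mul_left h _))

end Pool.Agent.Results.MP_c68aab_nt.DelannoyCongruence
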